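import Pool.Agent.H59.HR.Stm

/-! # HR, parts MI and MO: monomial ideals -/

set_option linter.all false

open Polynomial

namespace HR

namespace MI_aux

theorem ex_le {p : ℕ × ℕ} {m : Fin 2 →₀ ℕ} : ex p ≤ m ↔ p ≤ (m 0, m 1) := by
  rw [Finsupp.le_def, Prod.le_def]
  constructor
  · intro h
    have h0 := h 0
    have h1 := h 1
    rw [ex_zero] at h0
    rw [ex_one] at h1
    exact ⟨h0, h1⟩
  · rintro ⟨h0, h1⟩ i
    fin_cases i
    · simpa using h0
    · simpa using h1

theorem mIdeal_eq (S : Finset (ℕ × ℕ)) : mIdeal S =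
    Ideal.span ((fun m => MvPolynomial.monomial m (1 : ℂ)) '' (ex '' {p | p ∉ S})) := by
  rw [mIdeal]
  congr 1
  ext f
  constructor
  · rintro ⟨p, hp, rfl⟩
    exact ⟨ex p, ⟨p, hp, rfl⟩, (mon_eq ℂ p).symm⟩
  · rintro ⟨_, ⟨p, hp, rfl⟩, rfl⟩
    exact ⟨p, hp, (mon_eq ℂ p).symm⟩

theorem mem (S : Finset (ℕ × ℕ)) (hS : IsLowerSet (S : Set (ℕ × ℕ))) (f : P2 ℂ) :
    f ∈ mIdeal S ↔ ∀ p ∈ S, MvPolynomial.coeff (ex p) f = 0 := by
  rw [mIdeal_eq, MvPolynomial.mem_ideal_span_monomial_image]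
  constructor
  · intro h p hp
    by_contra hc
    obtain ⟨_, ⟨q, hq, rfl⟩, hle⟩ := h (ex p) (MvPolynomial.mem_support_iff.2 hc)
    rw [ex_le] at hle
    rw [ex_zero, ex_one] at hle
    exact hq (Finset.mem_coe.1 (hS hle (Finset.mem_coe.2 hp)))
  · intro h m hm
    refine ⟨m, ⟨(m 0, m 1), ?_, ex_eq m⟩, le_rfl⟩
    intro hc
    exact MvPolynomial.mem_support_iff.1 hm (by rw [← ex_eq m]; exact h _ hc)

/-- the coefficients -/
noncomputable def cf (S : Finset (ℕ × ℕ)) : P2 ℂ →ₗ[ℂ] (S → ℂ) :=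
  LinearMap.pi fun p => MvPolynomial.lcoeff ℂ (ex p.1)

theorem cf_apply (S : Finset (ℕ × ℕ)) (f : P2 ℂ) (p : S) :
    cf S f p = MvPolynomial.coeff (ex p.1) f := rfl

theorem cf_surj (S : Finset (ℕ × ℕ)) : Function.Surjective (cf S) := by
  intro g
  refine ⟨∑ p : S, MvPolynomial.monomial (ex p.1) (g p), ?_⟩
  ext q
  rw [cf_apply, MvPolynomial.coeff_sum, Finset.sum_eq_single q]
  · rw [MvPolynomial.coeff_monomial, if_pos rfl]
  · intro b _ hb
    rw [MvPolynomial.coeff_monomial, if_neg]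
    intro h
    exact hb (Subtype.ext (ex_inj h))
  · intro h
    exact absurd (Finset.mem_univ q) h

/-- the quotient -/
noncomputable def eqv (S : Finset (ℕ × ℕ)) (hS : IsLowerSet (S : Set (ℕ × ℕ))) :
    (P2 ℂ ⧸ mIdeal S) ≃ₗ[ℂ] (S → ℂ) :=
  (Submodule.Quotient.restrictScalarsEquiv ℂ (mIdeal S)).symm ≪≫ₗ
    (Submodule.quotEquivOfEq _ _ (by
      ext f
      rw [Submodule.restrictScalars_mem, LinearMap.mem_ker, mem S hS]
      constructor
      · intro h
        ext p
        exact h p.1 p.2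
      · intro h p hp
        exact congrFun h ⟨p, hp⟩)) ≪≫ₗ
    LinearMap.quotKerEquivOfSurjective (cf S) (cf_surj S)

end MI_aux

theorem MI : S_MI := by
  intro S hS
  refine ⟨MI_aux.mem S hS, Module.Finite.equiv (MI_aux.eqv S hS).symm, ?_⟩
  rw [(MI_aux.eqv S hS).finrank_eq, Module.finrank_fintype_fun_eq_card, Fintype.card_coe]

theorem MO : S_MO := by
  intro n I hn hI hr
  obtain ⟨s, hs⟩ := hI
  have hfin : Module.Finite ℂ (P2 ℂ ⧸ I) := Module.finite_of_finrank_pos (by omega)
  have key : ∀ f : P2 ℂ, f ∈ I ↔ ∀ m ∈ f.support, MvPolynomial.monomial m (1 : ℂ) ∈ I := by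
    intro f
    rw [hs, MvPolynomial.mem_ideal_span_monomial_image]
    refine forall₂_congr fun m _ => ?_
    rw [MvPolynomial.mem_ideal_span_monomial_image]
    constructor
    · rintro ⟨t, ht, hle⟩ m' hm'
      have : m' = m := by
        by_contra hne
        rw [MvPolynomial.mem_support_iff, MvPolynomial.coeff_monomial, if_neg (Ne.symm hne)] at hm'
        exact hm' rfl
      exact ⟨t, ht, this ▸ hle⟩
    · intro h
      exact h m (by rw [MvPolynomial.mem_support_iff, MvPolynomial.coeff_monomial, if_pos rfl]; exact one_ne_zero)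
  let T : Set (ℕ × ℕ) := {p | mon ℂ p ∉ I}
  have hlow : IsLowerSet T := by
    intro p q hqp hp hq
    apply hp
    have : p = (p - q) + q := (tsub_add_cancel_of_le hqp).symm
    rw [this, ← mon_mul]
    exact I.mul_mem_left _ hq
  have hli : LinearIndependent ℂ (fun p : T => Ideal.Quotient.mk I (mon ℂ p.1)) := by
    rw [linearIndependent_iff']
    intro F g hg i hi
    by_contra hne
    have h1 : (∑ p ∈ F, MvPolynomial.monomial (ex p.1) (g p) : P2 ℂ) ∈ I := by
      rw [← Ideal.Quotient.eq_zero_iff_mem, map_sum, ← hg]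
      refine Finset.sum_congr rfl fun p _ => ?_
      rw [mon_eq]
      rw [show (MvPolynomial.monomial (ex p.1) (g p) : P2 ℂ) =
        g p • MvPolynomial.monomial (ex p.1) 1 by rw [MvPolynomial.smul_monomial, smul_eq_mul, mul_one]]
      rfl
    have h2 := (key _).1 h1 (ex i.1) (by
      rw [MvPolynomial.mem_support_iff, MvPolynomial.coeff_sum, Finset.sum_eq_single i]
      · rw [MvPolynomial.coeff_monomial, if_pos rfl]
        exact hne
      · intro b _ hb
        rw [MvPolynomial.coeff_monomial, if_neg]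
        intro h
        exact hb (Subtype.ext (ex_inj h))
      · intro h
        exact absurd hi h)
    rw [← mon_eq] at h2
    exact i.2 h2
  have hTfin : Finite T := hli.finite
  have hTf : T.Finite := hTfin
  have hS : IsLowerSet (hTf.toFinset : Set (ℕ × ℕ)) := by simpa using hlow
  have hIeq : I = mIdeal hTf.toFinset := by
    ext f
    rw [MI_aux.mem _ hS, key]
    constructor
    · intro h p hp
      by_contra hne
      have := h (ex p) (MvPolynomial.mem_support_iff.2 hne)
      rw [← mon_eq] at this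
      exact (hTf.mem_toFinset.1 hp) this
    · intro h m hm
      by_contra hne
      rw [← ex_eq m, ← mon_eq] at hne
      have := h (m 0, m 1) (hTf.mem_toFinset.2 hne)
      rw [ex_eq] at this
      exact MvPolynomial.mem_support_iff.1 hm this
  refine ⟨hTf.toFinset, hS, ?_, hIeq⟩
  rw [← (MI _ hS).2.2, ← hIeq, hr]

end HR
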